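import Pool.Agent.H63.WT.TD
import Pool.Agent.H23.QCF.LocalAll
import Pool.Agent.H1.WTX.AN4
import Pool.Agent.H1.WTX.BCH
import Pool.Agent.H1.WTX.TRH
import Pool.Agent.H13.WIT.FPT
import Pool.Agent.H15.WT.QDZ
import Pool.Agent.H15.WT.SEU
import Pool.Agent.H15.WT.SYI
import Pool.Agent.H15.WT.TR
import Pool.Agent.H15.WT.TRO
import Pool.Agent.H15.WT.TRS
import Pool.Agent.H15.WT.TRT
import Pool.Agent.H16.WT.LAE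
import Pool.Agent.H16.WT.LAL
import Pool.Agent.H16.WT.RAM
import Pool.Agent.H16.WT.RED
import Pool.Agent.H17.WT.IRO
import Pool.Agent.H17.WT.LOCF
import Pool.Agent.H17.WT.SCL
import Pool.Agent.H18.WT.EU9
import Pool.Agent.H18.WT.EXR
import Pool.Agent.H18.WT.HPR
import Pool.Agent.H18.WT.RAL
import Pool.Agent.H18.WT.RTF
import Pool.Agent.H18.WT.RTI
import Pool.Agent.H23.WT.LOCR
import Pool.Agent.H23.WT.MEX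
import Pool.Agent.H23.WT.NRP
import Pool.Agent.H23.WT.SUB
import Pool.Agent.H23.WT.TR2
import Pool.Agent.H26.WT.IEV
import Pool.Agent.H26.WT.IOD
import Pool.Agent.H26.WT.LLP
import Pool.Agent.H29.WT.LIN
import Pool.Agent.H29.WT.ODD
import Pool.Agent.H34.WT.CAD
import Pool.Agent.H34.WT.NTR
import Pool.Agent.H34.WT.PRJ
import Pool.Agent.H34.WT.SPT
import Pool.Agent.H34.WT.SUM
import Pool.Agent.H34.WT.SYH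
import Pool.Agent.H34.WT.SYN
import Pool.Agent.H34.WT.TRI
import Pool.Agent.H35.WT.NFT
import Pool.Agent.H36.WT.GDT
import Pool.Agent.H36.WT.GMM
import Pool.Agent.H36.WT.GMV
import Pool.Agent.H36.WT.NNR
import Pool.Agent.H36.WT.SSQ
import Pool.Agent.H39.WT.LDV
import Pool.Agent.H49.WT.ALT
import Pool.Agent.H49.WT.BCS
import Pool.Agent.H49.WT.EUA
import Pool.Agent.H49.WT.EUB
import Pool.Agent.H49.WT.EXF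
import Pool.Agent.H49.WT.PHI
import Pool.Agent.H49.WT.SPC
import Pool.Agent.H49.WT.SYF
import Pool.Agent.H51.WT.TOTF
import Pool.Agent.H55.WT.PTB
import Pool.Agent.H55.WT.RHP
import Pool.Agent.H57.WT.CLC
import Pool.Agent.H57.WT.EXT
import Pool.Agent.H57.WT.FIN
import Pool.Agent.H57.WT.LOC
import Pool.Agent.H57.WT.ODP
import Pool.Agent.H57.WT.RMB
import Pool.Agent.H57.WT.SQP
import Pool.Agent.H63.WTR.FWD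
import Pool.Agent.H67.WT.CLS
import Pool.Agent.H67.WT.W0
import Pool.Agent.H67.WT.WCL
import Pool.Agent.H68.WTQ.DTE
import Pool.Agent.H68.WTQ.I2D
import Pool.Agent.H68.WTQ.ONE
import Pool.Agent.H68.WTQ.PFI
import Pool.Agent.H73.WT.LNE
import Pool.Agent.H80.WT.SP7
import Pool.Agent.H81.WT.DUA
import Pool.Agent.H81.WT.IV
import Pool.Agent.H81.WT.RCB
import Pool.Agent.H81.WT.REV
import Pool.Agent.H86.WT.EUC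
import Pool.Agent.H86.WT.IX1
import Pool.Agent.H86.WT.MDS
import Pool.Agent.H86.WT.NRS
import Pool.Agent.H86.WT.NSQ
import Pool.Agent.H86.WT.RSG
import Pool.Agent.H86.WT.SGN
import Pool.Agent.H88.WT.SCR
import Pool.Agent.H88.WT.SYB
import Pool.Agent.H91.WT.DIV
import Pool.Agent.H91.WT.E42
import Pool.Agent.H91.WT.I2AP
import Pool.Agent.H91.WT.I2B
import Pool.Agent.H91.WT.I2C
import Pool.Agent.H91.WT.I2DP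
import Pool.Agent.H91.WT.TRU

/-!
# The local block of two quadrics in P^6: assembly
-/

set_option autoImplicit false

open Pool.Agent.H63.WT

namespace Pool.Agent.H63.WTA

theorem rWCL : Pool.Agent.H63.WT.T_WCL :=
Pool.Agent.H67.WT.pf_WCL

theorem rW0 : Pool.Agent.H63.WT.T_W0 :=
Pool.Agent.H67.WT.pf_W0

theorem rCLS : Pool.Agent.H63.WT.T_CLS :=
Pool.Agent.H67.WT.pf_CLS

theorem rMDS : Pool.Agent.H63.WT.T_MDS :=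
Pool.Agent.H86.WT.pf_MDS

theorem rI2D : Pool.Agent.H63.WT.T_I2D :=
Pool.Agent.H68.WTQ.pf_I2D rMDS rW0 rCLS

theorem rI2A : Pool.Agent.H63.WT.T_I2A :=
Pool.Agent.H68.WTQ.pf_I2A rI2D rCLS

theorem rAN4 : Pool.Agent.H63.WT.T_AN4 :=
Pool.Agent.H1.WTX.pf_AN4

theorem rBCH : Pool.Agent.H63.WT.T_BCH :=
Pool.Agent.H1.WTX.pf_BCH rCLS

theorem rTRH : Pool.Agent.H63.WT.T_TRH :=
Pool.Agent.H1.WTX.pf_TRH rCLS

theorem rONE : Pool.Agent.H63.WT.T_ONE :=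
Pool.Agent.H68.WTQ.pf_ONE rCLS

theorem rPFI : Pool.Agent.H63.WT.T_PFI :=
Pool.Agent.H68.WTQ.pf_PFI rI2D rW0 rCLS rONE rAN4

theorem rLAE : Pool.Agent.H63.WT.T_LAE :=
Pool.Agent.H16.WT.pf_LAE

theorem rLAL : Pool.Agent.H63.WT.T_LAL :=
Pool.Agent.H16.WT.pf_LAL Pool.Agent.H23.QCF.LA.nix Pool.Agent.H23.QCF.LA.car

theorem rIV : Pool.Agent.H63.WT.T_IV :=
Pool.Agent.H81.WT.pf_IV rPFI rW0 rCLS rONE rI2A rI2D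

theorem rSCL : Pool.Agent.H63.WT.T_SCL :=
Pool.Agent.H17.WT.pf_SCL rIV rI2D rI2A rCLS rW0

theorem rQDZ : Pool.Agent.H63.WT.T_QDZ :=
Pool.Agent.H15.WT.pf_QDZ rIV rPFI rONE rCLS

theorem rTRI : Pool.Agent.H63.WT.T_TRI :=
Pool.Agent.H34.WT.pf_TRI rI2D

theorem rTRU : Pool.Agent.H63.WT.T_TRU :=
Pool.Agent.H91.WT.pf_TRU rLAE rIV rSCL rCLS

theorem rTRT : Pool.Agent.H63.WT.T_TRT :=
Pool.Agent.H15.WT.pf_TRT rTRU rTRI rTRH rIV rLAE rCLS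

theorem rTR2 : Pool.Agent.H63.WT.T_TR2 :=
Pool.Agent.H23.WT.pf_TR2 rTRU rTRH rPFI rIV rONE rCLS rLAE

theorem rSEU : Pool.Agent.H63.WT.T_SEU :=
Pool.Agent.H15.WT.pf_SEU rCLS

theorem rTRO : Pool.Agent.H63.WT.T_TRO :=
Pool.Agent.H15.WT.pf_TRO rTRU rTRH rSEU rIV rPFI rONE rCLS

theorem rTRS : Pool.Agent.H63.WT.T_TRS :=
Pool.Agent.H15.WT.pf_TRS rTRT rTR2 rTRO rLAE

theorem rTR : Pool.Agent.H63.WT.T_TR :=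
Pool.Agent.H15.WT.pf_TR rTRT rTRO rTRS rLAE

theorem rGDT : Pool.Agent.H63.WT.T_GDT :=
Pool.Agent.H36.WT.pf_GDT

theorem rNNR : Pool.Agent.H63.WT.T_NNR :=
Pool.Agent.H36.WT.pf_NNR rGDT

theorem rGMM : Pool.Agent.H63.WT.T_GMM :=
Pool.Agent.H36.WT.pf_GMM

theorem rNRS : Pool.Agent.H63.WT.T_NRS :=
Pool.Agent.H86.WT.pf_NRS rGDT rNNR rGMM

theorem rSCR : Pool.Agent.H63.WT.T_SCR :=
Pool.Agent.H88.WT.pf_SCR rCLS rGDT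

theorem rSSQ : Pool.Agent.H63.WT.T_SSQ :=
Pool.Agent.H36.WT.pf_SSQ rCLS rGDT

theorem rGMV : Pool.Agent.H63.WT.T_GMV :=
Pool.Agent.H36.WT.pf_GMV

theorem rNSQ : Pool.Agent.H63.WT.T_NSQ :=
Pool.Agent.H86.WT.pf_NSQ rGDT

theorem rSYI : Pool.Agent.H63.WT.T_SYI :=
Pool.Agent.H15.WT.pf_SYI rI2D rCLS rGDT

theorem rSYH : Pool.Agent.H63.WT.T_SYH :=
Pool.Agent.H34.WT.pf_SYH rTR rPFI rTRH rCLS rGDT

theorem rSYF : Pool.Agent.H63.WT.T_SYF :=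
Pool.Agent.H49.WT.pf_SYF rSCR rSYH rTR rTRH rSCL rLAE rI2A rCLS rPFI rONE rGDT

theorem rSYB : Pool.Agent.H63.WT.T_SYB :=
Pool.Agent.H88.WT.pf_SYB rSYF rSYH rTR rTRH rIV rLAE rPFI rONE rCLS rI2A

theorem rSYN : Pool.Agent.H63.WT.T_SYN :=
Pool.Agent.H34.WT.pf_SYN rSYF rSYH

theorem rSYC : Pool.Agent.H63.WT.T_SYC :=
Pool.Agent.H34.WT.pf_SYC rSCL rSSQ rGDT rCLS rI2D

theorem rSYP : Pool.Agent.H63.WT.T_SYP :=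
Pool.Agent.H34.WT.pf_SYP rSYH

theorem rHPR : Pool.Agent.H63.WT.T_HPR :=
Pool.Agent.H18.WT.pf_HPR rSYF rSYH rSYI rIV

theorem rEU1 : Pool.Agent.H63.WT.T_EU1 :=
Pool.Agent.H49.WT.pf_EU1 rSCR rSEU

theorem rEU2 : Pool.Agent.H63.WT.T_EU2 :=
Pool.Agent.H49.WT.pf_EU2 rSCR rSEU

theorem rEU3 : Pool.Agent.H63.WT.T_EU3 :=
Pool.Agent.H49.WT.pf_EU3 rEU1 rEU2 rSEU rSSQ

theorem rEU4 : Pool.Agent.H63.WT.T_EU4 :=
Pool.Agent.H49.WT.pf_EU4 rEU1 rEU2 rSEU rSSQ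

theorem rEU5 : Pool.Agent.H63.WT.T_EU5 :=
Pool.Agent.H86.WT.pf_EU5 rEU1 rEU2 rSEU rSSQ rONE

theorem rEU6 : Pool.Agent.H63.WT.T_EU6 :=
Pool.Agent.H86.WT.pf_EU6 rEU1 rEU2 rSEU rSSQ rONE

theorem rEU7 : Pool.Agent.H63.WT.T_EU7 :=
Pool.Agent.H86.WT.pf_EU7 rEU1 rEU2 rSEU rSSQ rONE

theorem rEU8 : Pool.Agent.H63.WT.T_EU8 :=
Pool.Agent.H49.WT.pf_EU8 rSCR rSEU

theorem rEU9 : Pool.Agent.H63.WT.T_EU9 :=
Pool.Agent.H18.WT.pf_EU9 rI2D rW0 rCLS rAN4 rGDT rONE rSSQ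

theorem rFPT : Pool.Agent.H63.WT.T_FPT :=
Pool.Agent.H13.WIT.pf_FPT

theorem rRED : Pool.Agent.H63.WT.T_RED :=
Pool.Agent.H16.WT.pf_RED

theorem rODP : Pool.Agent.H63.WT.T_ODP :=
Pool.Agent.H57.WT.pf_ODP rRED

theorem rRAM : Pool.Agent.H63.WT.T_RAM :=
Pool.Agent.H16.WT.pf_RAM

theorem rNTR : Pool.Agent.H63.WT.T_NTR :=
Pool.Agent.H34.WT.pf_NTR rSYN rSYB rSYC

theorem rSQP : Pool.Agent.H63.WT.T_SQP :=
Pool.Agent.H57.WT.pf_SQP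

theorem rRMB : Pool.Agent.H63.WT.T_RMB :=
Pool.Agent.H57.WT.pf_RMB

theorem rEXT : Pool.Agent.H63.WT.T_EXT :=
Pool.Agent.H57.WT.pf_EXT

theorem rIRO : Pool.Agent.H63.WT.T_IRO :=
Pool.Agent.H17.WT.pf_IRO

theorem rLOC : Pool.Agent.H63.WT.T_LOC :=
Pool.Agent.H57.WT.pf_LOC rSQP rRMB rSSQ rGDT rGMV

theorem rNRP : Pool.Agent.H63.WT.T_NRP :=
Pool.Agent.H23.WT.pf_NRP rSYP rIRO rLOC rSYF rSYB rSYC rSYI rIV rLAL rSSQ rGDT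

theorem rPTB : Pool.Agent.H63.WT.T_PTB :=
Pool.Agent.H55.WT.pf_PTB

theorem rLIN : Pool.Agent.H63.WT.T_LIN :=
Pool.Agent.H29.WT.pf_LIN rSQP rRMB rSYC rSSQ rGDT rLAL

theorem rFIN : Pool.Agent.H63.WT.T_FIN :=
Pool.Agent.H57.WT.pf_FIN rLOC rSSQ

theorem rFWD : Pool.Agent.H63.WT.T_FWD :=
Pool.Agent.H63.WTR.pf_FWD rLOC rFIN rGDT rNNR rMDS rSCR rSSQ rCLS rONE rW0 rAN4 rGMV

theorem rDUA : Pool.Agent.H63.WT.T_DUA :=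
Pool.Agent.H81.WT.pf_DUA rSYB rSYC rSYF rSYI rIV rGDT rPFI rSYP rSSQ rSCL rCLS rONE rI2D

theorem rSUB : Pool.Agent.H63.WT.T_SUB :=
Pool.Agent.H23.WT.pf_SUB rFPT rLOC rSQP rRMB rPTB

theorem rREV : Pool.Agent.H63.WT.T_REV :=
Pool.Agent.H81.WT.pf_REV rFWD rDUA rSUB rLOC rSSQ rSCR rSEU rSYB rEU9 rLAL rGDT rCLS rNNR rONE
    rPTB

theorem rMEX : Pool.Agent.H63.WT.T_MEX :=
Pool.Agent.H23.WT.pf_MEX rSQP rRMB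

theorem rDTE : Pool.Agent.H63.WT.T_DTE :=
Pool.Agent.H68.WTQ.pf_DTE rMEX rRAM rNRS rNSQ

theorem rCAD : Pool.Agent.H63.WT.T_CAD :=
Pool.Agent.H34.WT.pf_CAD rSYF rSYB rSYC rSYI rI2A rEU9 rGDT rNNR

theorem rCLC : Pool.Agent.H63.WT.T_CLC :=
Pool.Agent.H57.WT.pf_CLC rLOC rLIN

theorem rRMV : Pool.Agent.H63.WT.T_RMV :=
Pool.Agent.H34.WT.pf_RMV rNRP rLAL rIV rI2A rEU9

theorem rFLN : Pool.Agent.H63.WT.T_FLN :=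
Pool.Agent.H34.WT.pf_FLN rCLC rCAD rLAL

theorem rSUM : Pool.Agent.H63.WT.T_SUM :=
Pool.Agent.H34.WT.pf_SUM rPTB rFWD rEU8 rEU7 rSYF rCAD rEU9 rNNR rGDT rLAL

theorem rALT : Pool.Agent.H63.WT.T_ALT :=
Pool.Agent.H49.WT.pf_ALT rFLN rSUM rPTB rCLC rFPT rNTR rIV rCAD rLAL rEU9

theorem rDIV : Pool.Agent.H63.WT.T_DIV :=
Pool.Agent.H91.WT.pf_DIV rRED rPTB rNTR rCLC rCAD rIV rLAL rEU9

theorem rIOD : Pool.Agent.H63.WT.T_IOD :=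
Pool.Agent.H26.WT.pf_IOD rDIV rRMV rCAD rEU7 rEU9 rFWD rPTB rNNR rGDT rIV rLAL

theorem rIEV : Pool.Agent.H63.WT.T_IEV :=
Pool.Agent.H26.WT.pf_IEV rDIV rRMV rCAD rEU3 rEU4 rEU9 rFWD rPTB rNNR rGDT rIV rLAL rSSQ

theorem rIX1 : Pool.Agent.H63.WT.T_IX1 :=
Pool.Agent.H86.WT.pf_IX1 rALT rIOD rIEV rPTB

theorem rLNE : Pool.Agent.H63.WT.T_LNE :=
Pool.Agent.H73.WT.pf_LNE rGDT rMDS rNNR

theorem rE42 : Pool.Agent.H63.WT.T_E42 :=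
Pool.Agent.H91.WT.pf_E42 rEU5 rFWD rREV rRAM rCAD rFPT rNTR rLOC rSYF rLAL rEU9 rNNR rGDT

theorem rBCS : Pool.Agent.H63.WT.T_BCS :=
Pool.Agent.H49.WT.pf_BCS rGMM rCLS rGDT

theorem rNFT : Pool.Agent.H63.WT.T_NFT :=
Pool.Agent.H35.WT.pf_NFT rCLS rGDT rGMV

theorem rPRJ : Pool.Agent.H63.WT.T_PRJ :=
Pool.Agent.H34.WT.pf_PRJ rNFT rQDZ rBCH rBCS rTRH rTR rEU9 rGMM

theorem rI2AP : Pool.Agent.H63.WT.T_I2A' :=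
Pool.Agent.H91.WT.pf_I2AP rE42 rLNE rPRJ rQDZ rBCH rBCS rEU9 rNNR rGMM rGDT rCAD rSYI rLAL rIV

theorem rI2B : Pool.Agent.H63.WT.T_I2B :=
Pool.Agent.H91.WT.pf_I2B rI2AP rPRJ rEXT rPTB rLOC rCAD rSYF rSYC rLAL

theorem rI2C : Pool.Agent.H63.WT.T_I2C :=
Pool.Agent.H91.WT.pf_I2C rI2B rRED rNTR rCAD rLAL

theorem rLDV : Pool.Agent.H63.WT.T_LDV :=
Pool.Agent.H39.WT.pf_LDV rGDT rGMV rSEU rSCR rNNR

theorem rI2DP : Pool.Agent.H63.WT.T_I2D' :=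
Pool.Agent.H91.WT.pf_I2DP rREV rLDV rEXT rPTB rEU6 rEU4 rEU9 rI2AP rI2B rQDZ rBCH rBCS rGMM
    rGDT rCAD rNNR rSSQ rEU1 rONE rLAL

theorem rLLP : Pool.Agent.H63.WT.T_LLP :=
Pool.Agent.H26.WT.pf_LLP rIX1 rI2DP rI2C rEU3 rRMV rCAD rLAL rIV rEU9

theorem rODD : Pool.Agent.H63.WT.T_ODD :=
Pool.Agent.H29.WT.pf_ODD rSUM rODP rNRP rCAD rPTB rLAL rIV rEU9 rI2A

theorem rPHI : Pool.Agent.H63.WT.T_PHI :=
Pool.Agent.H49.WT.pf_PHI rCLS rGDT rNRS rI2D rSSQ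

theorem rSP7 : Pool.Agent.H63.WT.T_SP7 :=
Pool.Agent.H80.WT.pf_SP7 rW0 rCLS rGDT rSCR rSEU rSSQ rMDS rONE rNNR

theorem rSPT : Pool.Agent.H63.WT.T_SPT :=
Pool.Agent.H34.WT.pf_SPT rNFT rSP7 rTR rTRH rEU9 rGMM rIV

theorem rSPC : Pool.Agent.H63.WT.T_SPC :=
Pool.Agent.H49.WT.pf_SPC rSPT rEU8 rSYF rCAD rSSQ rNSQ rNNR rGDT

theorem rSGN : Pool.Agent.H63.WT.T_SGN :=
Pool.Agent.H86.WT.pf_SGN rHPR rPHI rSSQ rCAD rIV rEU9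

theorem rEXF : Pool.Agent.H63.WT.T_EXF :=
Pool.Agent.H49.WT.pf_EXF rLAL rIV rPFI rI2A

theorem rLOCF : Pool.Agent.H63.WT.T_LOCF :=
Pool.Agent.H17.WT.pf_LOCF rDTE rLLP rODD rSPC rSGN rEXF rLAL rCAD rIV rHPR rGDT rI2D

theorem rTOTF : Pool.Agent.H63.WT.T_TOTF :=
Pool.Agent.H51.WT.pf_TOTF rSPT rLAL rHPR rPHI rNRS rIV rEXF rSYB

theorem rRSG : Pool.Agent.H63.WT.T_RSG :=
Pool.Agent.H86.WT.pf_RSG rW0 rCLS rONE rI2D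

theorem rEXR : Pool.Agent.H63.WT.T_EXR :=
Pool.Agent.H18.WT.pf_EXR rRSG rPFI rONE rI2A

theorem rRTF : Pool.Agent.H63.WT.T_RTF :=
Pool.Agent.H18.WT.pf_RTF rSCR rSSQ rSEU

theorem rRHP : Pool.Agent.H63.WT.T_RHP :=
Pool.Agent.H55.WT.pf_RHP

theorem rRND : Pool.Agent.H63.WT.T_RND :=
Pool.Agent.H18.WT.pf_RND

theorem rRTI : Pool.Agent.H63.WT.T_RTI :=
Pool.Agent.H18.WT.pf_RTI

theorem rRAL : Pool.Agent.H63.WT.T_RAL :=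
Pool.Agent.H18.WT.pf_RAL

theorem rRCB : Pool.Agent.H63.WT.T_RCB :=
Pool.Agent.H81.WT.pf_RCB

theorem rLOCR : Pool.Agent.H63.WT.T_LOCR :=
Pool.Agent.H23.WT.pf_LOCR rEXR rRSG rRTF rRHP rRND rRTI rRAL rRCB rPHI rNRS rGDT rSSQ

end Pool.Agent.H63.WTA
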